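import Pool.Agent.H.MP_dca26c_an.Main

set_option autoImplicit false
open Pointwise

namespace Pool.Agent.H.MP_562679_an

open Pool.Agent.H.MP_dca26c_an MeasureTheory Metric in
theorem fool :
    ∃ C : ℝ, 0 < C ∧
      ∀ d : ℕ, 1 ≤ d →
      ∀ D : Set (EuclideanSpace ℝ (Fin d)), IsOpen D → MeasureTheory.volume D = 1 →
      ∀ n : ℕ, 1 ≤ n →
      ∀ x : Fin n → EuclideanSpace ℝ (Fin d), (∀ i, x i ∈ D) →
      ∃ f : EuclideanSpace ℝ (Fin d) → ℝ,
        ContDiffOn ℝ 2 f D ∧
        (∀ y ∈ D, |f y| ≤ 1) ∧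
        (∀ y ∈ D, ∀ z ∈ D, |f y - f z| ≤ (Real.sqrt (d : ℝ))⁻¹ * dist y z) ∧
        (∀ θ : EuclideanSpace ℝ (Fin d), ‖θ‖ = 1 →
          ∀ y ∈ D, ∀ z ∈ D,
            |fderiv ℝ f y θ - fderiv ℝ f z θ| ≤ ((d : ℝ))⁻¹ * dist y z) ∧
        (∀ i, f (x i) = 0) ∧
        C * (n : ℝ) ^ (-(2 : ℝ) / (d : ℝ)) ≤ |∫ y in D, f y| := by
  refine ⟨1 / 12800, by norm_num, fun d hd D hD hvol n hn x _ => ?_⟩
  have d0 : (0 : ℝ) < d := by exact_mod_cast hd
  have n1 : (1 : ℝ) ≤ n := by exact_mod_cast hn
  set t : ℝ := (n : ℝ) ^ (-(2 : ℝ) / (d : ℝ)) with ht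
  have t0 : 0 < t := by positivity
  have t1 : t ≤ 1 := Real.rpow_le_one_of_one_le_of_nonpos n1
    (div_nonpos_of_nonpos_of_nonneg (by norm_num) d0.le)
  set R : ℝ := Real.sqrt (d * t / 100) with hR
  have R0 : 0 < R := Real.sqrt_pos.mpr (by positivity)
  have R2 : R ^ 2 = d * t / 100 := Real.sq_sqrt (by positivity)
  let Z : Set (EuclideanSpace ℝ (Fin d)) := ⋃ i, closedBall (x i) (R / 4)
  have hZ : IsCompact Z := isCompact_iUnion fun i => isCompact_closedBall _ _
  have hne : Z.Nonempty := ⟨x ⟨0, hn⟩, Set.mem_iUnion.mpr ⟨⟨0, hn⟩, mem_closedBall_self (by positivity)⟩⟩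
  obtain ⟨F, hF, F0, F1, F2, F3, F4⟩ := exists_smooth d0 hZ hne (R / 4) (by positivity)
  have hdiff : Differentiable ℝ F := hF.differentiable (by norm_num)
  have htay := taylor hdiff d0 F2
  refine ⟨F, hF.contDiffOn, fun y _ => ?_, fun y _ z _ => ?_, fun θ hθ y _ z _ => ?_,
    fun i => ?_, ?_⟩
  · rw [abs_of_nonneg (F0 y)]; linarith [F1 y]
  · have := convex_univ.norm_image_sub_le_of_norm_fderiv_le (fun w _ => hdiff w)
      (fun w _ => grad_bound d0 htay F0 F1 w) (Set.mem_univ z) (Set.mem_univ y)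
    rwa [dist_eq_norm]
  · rw [abs_le, dist_eq_norm]
    have h1 := grad_lip d0 htay θ hθ y z
    have h2 := grad_lip d0 htay θ hθ z y
    rw [norm_sub_rev] at h2
    constructor <;> linarith
  · exact F3 _ (ball_subset_closedBall.trans (Set.subset_iUnion (fun i => closedBall (x i) (R / 4)) i))
  · let U : Set (EuclideanSpace ℝ (Fin d)) := ⋃ i, ball (x i) R
    have hU : MeasurableSet U := (isOpen_iUnion fun i => isOpen_ball).measurableSet
    have hUv : volume.real U ≤ 1 / 2 := by
      refine le_trans (measureReal_iUnion_fintype_le _) ?_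
      refine le_trans (Finset.sum_le_sum fun i _ => vol_ball (50 / t) R (by positivity) (x i)) ?_
      rw [Finset.sum_const, Finset.card_univ, Fintype.card_fin, nsmul_eq_mul, R2,
        finrank_euclideanSpace_fin]
      have := num d n hd hn t ht
      have e : 50 / t * (d * t / 100) = 50 / t * (d * t / 100) := rfl
      exact this
    have hDfin : volume D ≠ ⊤ := by rw [hvol]; simp
    have hD1 : volume.real D = 1 := by rw [measureReal_def, hvol]; simp
    have hDU : 1 / 2 ≤ volume.real (D \ U) := by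
      have := le_measureReal_diff (μ := volume) (s₁ := D) (s₂ := U)
        (((Bornology.isBounded_iUnion.mpr fun i => isBounded_ball).measure_lt_top).ne)
      linarith
    have hint : IntegrableOn F D volume :=
      Measure.integrableOn_of_bounded hDfin hF.continuous.aestronglyMeasurable (M := 1)
        (Filter.Eventually.of_forall fun y => by
          rw [Real.norm_of_nonneg (F0 y)]; linarith [F1 y])
    have h1 := setIntegral_mono_set hint (Filter.Eventually.of_forall fun y => F0 y)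
      (Set.diff_subset (s := D) (t := U)).eventuallyLE
    have h2 := setIntegral_ge_of_const_le_real (μ := volume) (s := D \ U) (f := F) (c := t / 1600)
      (hD.measurableSet.diff hU) (ne_top_of_le_ne_top hDfin (measure_mono Set.diff_subset))
      (fun y hy => F4 y _ fun w hw => by
        have a1 : R / 2 ≤ infDist w Z := by
          refine (le_infDist hne).mpr fun z hz => ?_
          obtain ⟨i, hi⟩ := Set.mem_iUnion.mp hz
          have a2 : R ≤ dist y (x i) := by
            by_contra hlt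
            exact hy.2 (Set.mem_iUnion.mpr ⟨i, lt_of_not_ge hlt⟩)
          have a3 := dist_triangle4 y w z (x i)
          rw [mem_ball, dist_comm] at hw
          rw [mem_closedBall] at hi
          linarith
        refine le_min (by linarith) ?_
        have a4 : (R / 2) ^ 2 ≤ infDist w Z ^ 2 := by gcongr
        rw [le_div_iff₀ (by positivity)]
        nlinarith)
      (hint.mono_set Set.diff_subset)
    refine le_trans ?_ (le_abs_self _)
    nlinarith

open MeasureTheory in
lemma ball_facts (p : ℝ) (hp : 0 < p) (d : ℕ) (hd : 1 ≤ d) :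
    (∀ r : ℝ, IsOpen {x : EuclideanSpace ℝ (Fin d) | ∑ i, |x i / r| ^ p < 1}) ∧
    ∃ r : ℝ, 0 < r ∧ volume {x : EuclideanSpace ℝ (Fin d) | ∑ i, |x i / r| ^ p < 1} = 1 := by
  have ho : ∀ r : ℝ, IsOpen {x : EuclideanSpace ℝ (Fin d) | ∑ i, |x i / r| ^ p < 1} := by
    intro r
    refine isOpen_lt (continuous_finset_sum _ fun i _ => ?_) continuous_const
    exact (Real.continuous_rpow_const hp.le).comp (by fun_prop)
  refine ⟨ho, ?_⟩
  set B := {x : EuclideanSpace ℝ (Fin d) | ∑ i, |x i / 1| ^ p < 1} with hB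
  have h0 : volume B ≠ 0 := ((ho 1).measure_pos volume ⟨0, by simp [Real.zero_rpow hp.ne']⟩).ne'
  have hb : Bornology.IsBounded B := by
    refine (Metric.isBounded_closedBall (x := 0) (r := d)).subset fun x hx => ?_
    have h1 : ∀ i, |x i| ≤ 1 := by
      intro i
      by_contra h
      push Not at h
      have h2 : 1 ≤ |x i / 1| ^ p := Real.one_le_rpow (by simpa using h.le) hp.le
      have h3 : |x i / 1| ^ p ≤ ∑ j, |x j / 1| ^ p :=
        Finset.single_le_sum (f := fun j => |x j / 1| ^ p)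
          (fun j _ => Real.rpow_nonneg (abs_nonneg _) _) (Finset.mem_univ i)
      have h4 : ∑ j, |x j / 1| ^ p < 1 := hx
      linarith
    rw [mem_closedBall_zero_iff, EuclideanSpace.norm_eq]
    have d1 : (1 : ℝ) ≤ d := by exact_mod_cast hd
    rw [Real.sqrt_le_left (by linarith)]
    calc ∑ i, ‖x i‖ ^ 2 ≤ ∑ _i : Fin d, (1 : ℝ) := Finset.sum_le_sum fun i _ => by
          have := h1 i
          rw [Real.norm_eq_abs]; nlinarith [abs_nonneg (x i)]
      _ = d := by simp
      _ ≤ _ := by nlinarith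
  have h1 : volume B ≠ ⊤ := hb.measure_lt_top.ne
  have hv : 0 < (volume B).toReal := ENNReal.toReal_pos h0 h1
  set r := ((volume B).toReal⁻¹) ^ ((d : ℝ)⁻¹) with hr
  have r0 : 0 < r := Real.rpow_pos_of_pos (inv_pos.2 hv) _
  have rd : r ^ d = (volume B).toReal⁻¹ :=
    Real.rpow_inv_natCast_pow (inv_pos.2 hv).le (by omega)
  refine ⟨r, r0, ?_⟩
  have e : {x : EuclideanSpace ℝ (Fin d) | ∑ i, |x i / r| ^ p < 1} = r • B := by
    ext x
    rw [Set.mem_smul_set_iff_inv_smul_mem₀ r0.ne']
    simp [hB, div_eq_inv_mul]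
  rw [e, Measure.addHaar_smul, finrank_euclideanSpace_fin, rd, abs_of_pos (inv_pos.2 hv),
    ENNReal.ofReal_inv_of_pos hv, ENNReal.ofReal_toReal h1, ENNReal.inv_mul_cancel h0 h1]

end Pool.Agent.H.MP_562679_an
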